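import Mathlib

/-! Zero sets of nonzero complex polynomials have measure zero on the real points. -/

set_option autoImplicit false

open MeasureTheory

namespace Pool.Agent.W440.IV

theorem null_fin (N : ℕ) : ∀ P : MvPolynomial (Fin N) ℂ, P ≠ 0 →
    volume {x : Fin N → ℝ | MvPolynomial.eval (fun i => (x i : ℂ)) P = 0} = 0 := by
  induction N with
  | zero =>
    intro P hP
    have h : {x : Fin 0 → ℝ | MvPolynomial.eval (fun i => (x i : ℂ)) P = 0} = ∅ := by
      ext x
      simp only [Set.mem_setOf_eq, Set.mem_empty_iff_false, iff_false]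
      rw [MvPolynomial.eq_C_of_isEmpty P, MvPolynomial.eval_C]
      intro h
      apply hP
      rw [MvPolynomial.eq_C_of_isEmpty P, h, map_zero]
    rw [h, measure_empty]
  | succ N ih =>
    intro P hP
    set p := MvPolynomial.finSuccEquiv ℂ N P with hp
    have hp0 : p ≠ 0 := by
      rw [hp]
      exact (map_ne_zero_iff _ (MvPolynomial.finSuccEquiv ℂ N).injective).2 hP
    have hc : p.leadingCoeff ≠ 0 := Polynomial.leadingCoeff_ne_zero.2 hp0
    have hih := ih p.leadingCoeff hc
    set S : Set (Fin (N + 1) → ℝ) := {x | MvPolynomial.eval (fun i => (x i : ℂ)) P = 0} with hS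
    set S' : Set ((Fin N → ℝ) × ℝ) :=
      {y | MvPolynomial.eval (fun i => ((Fin.cons y.2 y.1 : Fin (N + 1) → ℝ) i : ℂ)) P = 0} with hS'
    have hcont : Continuous fun x : Fin (N + 1) → ℂ => MvPolynomial.eval x P :=
      MvPolynomial.continuous_eval P
    have hS'm : MeasurableSet S' := by
      apply IsClosed.measurableSet
      apply isClosed_eq _ continuous_const
      apply hcont.comp
      apply continuous_pi
      intro i
      apply Complex.continuous_ofReal.comp
      refine Fin.cases ?_ (fun j => ?_) i
      · simp only [Fin.cons_zero]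
        exact continuous_snd
      · simp only [Fin.cons_succ]
        exact (continuous_apply j).comp continuous_fst
    have hS'0 : (volume.prod volume) S' = 0 := by
      rw [Measure.measure_prod_null hS'm]
      have h1 : ∀ᵐ y : Fin N → ℝ, MvPolynomial.eval (fun i => (y i : ℂ)) p.leadingCoeff ≠ 0 := by
        rw [ae_iff]
        simpa using hih
      filter_upwards [h1] with y hy
      have hq : Polynomial.map (MvPolynomial.eval (fun i => (y i : ℂ))) p ≠ 0 := by
        intro h
        have h2 := congrArg (fun q => Polynomial.coeff q p.natDegree) h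
        simp only [Polynomial.coeff_map, Polynomial.coeff_zero] at h2
        exact hy h2
      have hfin : (Prod.mk y ⁻¹' S').Finite := by
        have h3 := Polynomial.finite_setOf_isRoot hq
        apply Set.Finite.subset (h3.preimage (f := fun t : ℝ => (t : ℂ))
          (Complex.ofReal_injective.injOn))
        intro t ht
        have h4 : MvPolynomial.eval (fun i => ((Fin.cons t y : Fin (N + 1) → ℝ) i : ℂ)) P = 0 := ht
        have h5 : (fun i => ((Fin.cons t y : Fin (N + 1) → ℝ) i : ℂ)) =
            (Fin.cons (t : ℂ) (fun i => (y i : ℂ)) : Fin (N + 1) → ℂ) := by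
          funext i
          refine Fin.cases ?_ (fun j => ?_) i
          · simp
          · simp
        rw [h5, MvPolynomial.eval_eq_eval_mv_eval'] at h4
        exact h4
      exact hfin.measure_zero _
    have hmp := volume_preserving_piFinSuccAbove (fun _ : Fin (N + 1) => ℝ) 0
    have hswap : (volume.prod volume : Measure (ℝ × (Fin N → ℝ))) (Prod.swap ⁻¹' S') = 0 := by
      rw [← Measure.prod_swap, Measure.map_apply measurable_swap (measurable_swap hS'm)]
      exact hS'0
    have hpre : S = (MeasurableEquiv.piFinSuccAbove (fun _ : Fin (N + 1) => ℝ) 0) ⁻¹'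
        (Prod.swap ⁻¹' S') := by
      ext x
      simp only [hS, hS', Set.mem_setOf_eq, Set.mem_preimage, Prod.fst_swap, Prod.snd_swap]
      have h6 : (Fin.cons ((MeasurableEquiv.piFinSuccAbove (fun _ : Fin (N + 1) => ℝ) 0) x).1
          ((MeasurableEquiv.piFinSuccAbove (fun _ : Fin (N + 1) => ℝ) 0) x).2 :
          Fin (N + 1) → ℝ) = x := by
        funext i
        refine Fin.cases ?_ (fun j => ?_) i
        · rfl
        · rfl
      rw [h6]
    rw [hpre, hmp.measure_preimage (measurable_swap hS'm).nullMeasurableSet]
    exact hswap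

theorem null_fintype {κ : Type} [Fintype κ] (P : MvPolynomial κ ℂ) (hP : P ≠ 0) :
    volume {x : κ → ℝ | MvPolynomial.eval (fun i => (x i : ℂ)) P = 0} = 0 := by
  set e : κ ≃ Fin (Fintype.card κ) := Fintype.equivFin κ with he
  have hR : MvPolynomial.rename e P ≠ 0 := by
    intro h
    apply hP
    exact MvPolynomial.rename_injective e e.injective (by rw [h, map_zero])
  have h1 := null_fin _ (MvPolynomial.rename e P) hR
  have hmp := volume_measurePreserving_piCongrLeft (fun _ : Fin (Fintype.card κ) => ℝ) e
  have hcl : MeasurableSet {x : Fin (Fintype.card κ) → ℝ |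
      MvPolynomial.eval (fun i => (x i : ℂ)) (MvPolynomial.rename e P) = 0} := by
    apply IsClosed.measurableSet
    apply isClosed_eq _ continuous_const
    apply (MvPolynomial.continuous_eval _).comp
    fun_prop
  have hpre : {x : κ → ℝ | MvPolynomial.eval (fun i => (x i : ℂ)) P = 0} =
      (MeasurableEquiv.piCongrLeft (fun _ : Fin (Fintype.card κ) => ℝ) e) ⁻¹'
        {x | MvPolynomial.eval (fun i => (x i : ℂ)) (MvPolynomial.rename e P) = 0} := by
    ext x
    simp only [Set.mem_setOf_eq, Set.mem_preimage, MvPolynomial.eval_rename]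
    have h2 : ((fun i => (((MeasurableEquiv.piCongrLeft (fun _ : Fin (Fintype.card κ) => ℝ) e) x i : ℝ) : ℂ)) ∘ e) =
        fun i => (x i : ℂ) := by
      funext i
      simp only [Function.comp_apply]
      congr 1
      exact MeasurableEquiv.piCongrLeft_apply_apply (β := fun _ : Fin (Fintype.card κ) => ℝ) e x i
    rw [h2]
  rw [hpre, hmp.measure_preimage hcl.nullMeasurableSet]
  exact h1

end Pool.Agent.W440.IV
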