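import Pool.Agent.W567.IV.Stm
import Pool.Agent.W440.IV.Null

/-! IV-MEAS: the null set lemma on the phase space. The two spheres are parametrised by
stereographic coordinates, which turns the condition into a polynomial equation. -/

set_option autoImplicit false

open MeasureTheory

namespace Pool.Agent.W440.IV

open _root_.Pool.Agent.W567.IV

theorem clear_denoms {ι κ : Type} (P : MvPolynomial ι ℂ) (f : ι → MvPolynomial κ ℂ)
    (B : MvPolynomial κ ℂ) : ∃ (D : ℕ) (G : MvPolynomial κ ℂ), ∀ x : κ → ℂ,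
      MvPolynomial.eval x B ≠ 0 → MvPolynomial.eval x G = MvPolynomial.eval x B ^ D *
        MvPolynomial.eval (fun i => MvPolynomial.eval x (f i) / MvPolynomial.eval x B) P := by
  induction P using MvPolynomial.induction_on with
  | C a =>
    refine ⟨0, MvPolynomial.C a, fun x _ => ?_⟩
    rw [MvPolynomial.eval_C, MvPolynomial.eval_C, pow_zero, one_mul]
  | add p q hp hq =>
    obtain ⟨D1, G1, h1⟩ := hp
    obtain ⟨D2, G2, h2⟩ := hq
    refine ⟨D1 + D2, B ^ D2 * G1 + B ^ D1 * G2, fun x hx => ?_⟩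
    rw [map_add, map_mul, map_mul, map_pow, map_pow, h1 x hx, h2 x hx, map_add, pow_add]
    ring
  | mul_X p i hp =>
    obtain ⟨D, G, h⟩ := hp
    refine ⟨D + 1, G * f i, fun x hx => ?_⟩
    rw [map_mul, h x hx, map_mul, MvPolynomial.eval_X, pow_succ]
    field_simp

/-- numerators of the stereographic coordinates -/
noncomputable def num {m : ℕ} (s : ℝ) (ξ : Fin m → ℝ) : Fin (m + 1) → ℝ :=
  Fin.cons (s * (∑ j, ξ j ^ 2 - 1)) (fun i => 2 * ξ i)

/-- the denominator -/
noncomputable def den {m : ℕ} (ξ : Fin m → ℝ) : ℝ := 1 + ∑ j, ξ j ^ 2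

theorem den_pos {m : ℕ} (ξ : Fin m → ℝ) : 0 < den ξ := by
  unfold den
  positivity

/-- points of the unit sphere -/
noncomputable def sg {m : ℕ} (s : ℝ) (ξ : Fin m → ℝ) : EuclideanSpace ℝ (Fin (m + 1)) :=
  WithLp.toLp 2 (fun i => num s ξ i / den ξ)

theorem sg_surj {m : ℕ} {s : ℝ} (hs : s = 1 ∨ s = -1) (u : EuclideanSpace ℝ (Fin (m + 1)))
    (hu : ‖u‖ = 1) (h : s * u 0 ≠ 1) : ∃ ξ, u = sg s ξ := by
  have hss : s * s = 1 := by rcases hs with h | h <;> rw [h] <;> norm_num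
  have h1 : 1 - s * u 0 ≠ 0 := fun h' => h (by linarith)
  have hsum : u 0 ^ 2 + ∑ j : Fin m, u j.succ ^ 2 = 1 := by
    have h2 : ‖u‖ ^ 2 = 1 := by rw [hu]; norm_num
    rw [EuclideanSpace.norm_sq_eq, Fin.sum_univ_succ] at h2
    simpa using h2
  set ξ : Fin m → ℝ := fun j => u j.succ / (1 - s * u 0) with hξ
  have ha : ∑ j, ξ j ^ 2 = (1 + s * u 0) / (1 - s * u 0) := by
    simp only [hξ, div_pow]
    rw [← Finset.sum_div]
    have h3 : ∑ j : Fin m, u j.succ ^ 2 = (1 - s * u 0) * (1 + s * u 0) := by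
      have : (s * u 0) ^ 2 = u 0 ^ 2 := by
        rw [mul_pow, pow_two s, hss, one_mul]
      nlinarith
    rw [h3]
    field_simp
  have hden : den ξ = 2 / (1 - s * u 0) := by
    unfold den
    rw [ha]
    field_simp
    ring
  refine ⟨ξ, ?_⟩
  ext i
  show u i = num s ξ i / den ξ
  rw [hden]
  refine Fin.cases ?_ (fun j => ?_) i
  · unfold num
    rw [Fin.cons_zero, ha]
    have h4 : s * ((1 + s * u 0) / (1 - s * u 0) - 1) = 2 * u 0 / (1 - s * u 0) := by
      field_simp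
      have : s * (1 + s * u 0 - (1 - s * u 0)) = 2 * (s * s) * u 0 := by ring
      rw [this, hss]
      ring
    rw [h4, div_div_div_cancel_right₀ h1]
    ring
  · unfold num
    rw [Fin.cons_succ]
    simp only [hξ]
    rw [mul_div_assoc', div_div_div_cancel_right₀ h1]
    ring

/-- the chart of the product of the spheres -/
noncomputable def chart {m : ℕ} (O : EuclideanSpace ℝ (Fin (m + 1))) (r s s' : ℝ)
    (z : Fin m ⊕ Fin m → ℝ) :
    EuclideanSpace ℝ (Fin (m + 1)) × EuclideanSpace ℝ (Fin (m + 1)) :=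
  (O + r • sg s (fun i => z (Sum.inl i)), sg s' (fun i => z (Sum.inr i)))

theorem num_contDiff {m : ℕ} (s : ℝ) (i : Fin (m + 1)) :
    ContDiff ℝ 1 (fun ξ : Fin m → ℝ => num s ξ i) := by
  refine Fin.cases ?_ (fun j => ?_) i
  · unfold num
    simp only [Fin.cons_zero]
    fun_prop
  · unfold num
    simp only [Fin.cons_succ]
    fun_prop

theorem den_contDiff {m : ℕ} : ContDiff ℝ 1 (fun ξ : Fin m → ℝ => den ξ) := by
  unfold den
  fun_prop

theorem sg_contDiff {m : ℕ} (s : ℝ) : ContDiff ℝ 1 (fun ξ : Fin m → ℝ => sg s ξ) := by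
  rw [contDiff_euclidean]
  intro i
  show ContDiff ℝ 1 (fun ξ : Fin m → ℝ => num s ξ i / den ξ)
  exact (num_contDiff s i).div den_contDiff (fun ξ => (den_pos ξ).ne')

theorem chart_contDiff {m : ℕ} (O : EuclideanSpace ℝ (Fin (m + 1))) (r s s' : ℝ) :
    ContDiff ℝ 1 (chart O r s s') := by
  unfold chart
  apply ContDiff.prodMk
  · apply contDiff_const.add
    apply ContDiff.const_smul
    exact (sg_contDiff s).comp (by fun_prop)
  · exact (sg_contDiff s').comp (by fun_prop)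

theorem image_null {κ : Type} [Fintype κ] {V : Type} [NormedAddCommGroup V] [NormedSpace ℝ V]
    [MeasurableSpace V] [BorelSpace V] {f : (κ → ℝ) → V} (hf : ContDiff ℝ 1 f)
    {Q : Set (κ → ℝ)} (hQ : volume Q = 0) :
    Measure.hausdorffMeasure (Fintype.card κ : ℝ) (f '' Q) = 0 := by
  have hcov : f '' Q ⊆ ⋃ N : ℕ, f '' (Q ∩ Metric.closedBall 0 (N : ℝ)) := by
    rintro _ ⟨x, hx, rfl⟩
    obtain ⟨N, hN⟩ := exists_nat_ge ‖x‖
    exact Set.mem_iUnion.2 ⟨N, x, ⟨hx, mem_closedBall_zero_iff.2 hN⟩, rfl⟩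
  refine measure_mono_null hcov (measure_iUnion_null fun N => ?_)
  obtain ⟨K, hK⟩ := LocallyLipschitzOn.exists_lipschitzOnWith_of_compact
    (isCompact_closedBall (0 : κ → ℝ) (N : ℝ)) hf.locallyLipschitz.locallyLipschitzOn
  have h1 := (hK.mono (Set.inter_subset_right (s := Q))).hausdorffMeasure_image_le
    (d := (Fintype.card κ : ℝ)) (Nat.cast_nonneg _)
  have h2 : Measure.hausdorffMeasure (Fintype.card κ : ℝ)
      (Q ∩ Metric.closedBall (0 : κ → ℝ) (N : ℝ)) = 0 := by
    rw [hausdorffMeasure_pi_real]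
    exact measure_mono_null Set.inter_subset_left hQ
  rw [h2, mul_zero] at h1
  exact nonpos_iff_eq_zero.1 h1

/-- existence of a point of the chart where the polynomial does not vanish -/
theorem exists_ne {m : ℕ} (O : EuclideanSpace ℝ (Fin (m + 1))) {r : ℝ} (hr : 0 < r) {s s' : ℝ}
    (hs : s = 1 ∨ s = -1) (hs' : s' = 1 ∨ s' = -1)
    (P : MvPolynomial (Fin (m + 1) ⊕ Fin (m + 1)) ℂ) (hP : P ≠ 0) :
    ∃ (z : Fin m ⊕ Fin m → ℝ) (t c : ℝ), 0 < c ∧
      MvPolynomial.eval (Sum.elim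
        (fun k => (((chart O r s s' z).1 k + t * (chart O r s s' z).2 k : ℝ) : ℂ))
        (fun k => ((c * (chart O r s s' z).2 k : ℝ) : ℂ))) P ≠ 0 := by
  by_contra hcon
  push Not at hcon
  -- the open set
  set Ω : Set (Fin (m + 1) ⊕ Fin (m + 1) → ℝ) := {x |
    ‖(WithLp.toLp 2 (fun i => x (Sum.inl i)) : EuclideanSpace ℝ (Fin (m + 1))) - O‖ < r} ∩
      {x | s' * x (Sum.inr 0) < 0} with hΩ
  have hΩo : IsOpen Ω := by
    apply IsOpen.inter
    · apply isOpen_lt _ continuous_const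
      apply Continuous.norm
      apply Continuous.sub _ continuous_const
      exact (PiLp.continuous_toLp 2 _).comp (by fun_prop)
    · exact isOpen_lt (continuous_const.mul (continuous_apply _)) continuous_const
  have hs's : s' * s' = 1 := by rcases hs' with h | h <;> rw [h] <;> norm_num
  have hss : s * s = 1 := by rcases hs with h | h <;> rw [h] <;> norm_num
  have hΩn : Ω.Nonempty := by
    refine ⟨Sum.elim (fun i => O i) (fun _ => -s'), ?_, ?_⟩
    · show ‖(WithLp.toLp 2 (fun i => (Sum.elim (fun i => O i) (fun _ => -s') :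
          Fin (m + 1) ⊕ Fin (m + 1) → ℝ) (Sum.inl i)) : EuclideanSpace ℝ (Fin (m + 1))) - O‖ < r
      have : (WithLp.toLp 2 (fun i => (Sum.elim (fun i => O i) (fun _ => -s') :
          Fin (m + 1) ⊕ Fin (m + 1) → ℝ) (Sum.inl i)) : EuclideanSpace ℝ (Fin (m + 1))) - O = 0 := by
        ext i
        simp
      rw [this, norm_zero]
      exact hr
    · show s' * -s' < 0
      nlinarith
  have hsub : Ω ⊆ {x | MvPolynomial.eval (fun i => (x i : ℂ)) P = 0} := by
    rintro x ⟨hx1, hx2⟩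
    replace hx1 : ‖(WithLp.toLp 2 (fun i => x (Sum.inl i)) :
      EuclideanSpace ℝ (Fin (m + 1))) - O‖ < r := hx1
    replace hx2 : s' * x (Sum.inr 0) < 0 := hx2
    set y : EuclideanSpace ℝ (Fin (m + 1)) := WithLp.toLp 2 (fun i => x (Sum.inl i)) with hy
    set w : EuclideanSpace ℝ (Fin (m + 1)) := WithLp.toLp 2 (fun i => x (Sum.inr i)) with hw
    have hw0 : w ≠ 0 := by
      intro h
      have : w 0 = 0 := by rw [h]; rfl
      have h2 : w 0 = x (Sum.inr 0) := rfl
      rw [← h2, this, mul_zero] at hx2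
      exact lt_irrefl _ hx2
    set c := ‖w‖ with hc
    have hc0 : 0 < c := norm_pos_iff.2 hw0
    set v : EuclideanSpace ℝ (Fin (m + 1)) := c⁻¹ • w with hv
    have hv1 : ‖v‖ = 1 := by
      rw [hv, norm_smul, Real.norm_eq_abs, abs_of_pos (inv_pos.2 hc0), ← hc, inv_mul_cancel₀ hc0.ne']
    have hv0 : s' * v 0 < 0 := by
      have h2 : v 0 = c⁻¹ * x (Sum.inr 0) := rfl
      rw [h2]
      have : s' * (c⁻¹ * x (Sum.inr 0)) = c⁻¹ * (s' * x (Sum.inr 0)) := by ring
      rw [this]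
      exact mul_neg_of_pos_of_neg (inv_pos.2 hc0) hx2
    -- the point of the sphere
    set ε := s * s' with hε
    have hεε : |ε| = 1 := by
      rcases hs with h | h <;> rcases hs' with h' | h' <;> rw [hε, h, h'] <;> norm_num
    obtain ⟨k, hk0, hk⟩ : ∃ k : ℝ, 0 ≤ k ∧ ‖y + (ε * k) • v - O‖ = r := by
      set F : ℝ → ℝ := fun k => ‖y + (ε * k) • v - O‖ with hF
      have hFc : Continuous F := by
        rw [hF]
        fun_prop
      have hF0 : F 0 < r := by
        simp only [hF, mul_zero, zero_smul, add_zero]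
        exact hx1
      have hF1 : r ≤ F (2 * r) := by
        simp only [hF]
        have h1 : ‖(ε * (2 * r)) • v‖ = 2 * r := by
          rw [norm_smul, hv1, mul_one, Real.norm_eq_abs, abs_mul, hεε, one_mul,
            abs_of_pos (by linarith)]
        have h2 : (ε * (2 * r)) • v = (y + (ε * (2 * r)) • v - O) - (y - O) := by abel
        have h3 := norm_sub_le (y + (ε * (2 * r)) • v - O) (y - O)
        rw [← h2, h1] at h3
        linarith
      obtain ⟨k, hk, hk2⟩ := intermediate_value_Icc (show (0 : ℝ) ≤ 2 * r by linarith)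
        hFc.continuousOn ⟨hF0.le, hF1⟩
      exact ⟨k, hk.1, hk2⟩
    set u : EuclideanSpace ℝ (Fin (m + 1)) := r⁻¹ • (y + (ε * k) • v - O) with hu
    have hu1 : ‖u‖ = 1 := by
      rw [hu, norm_smul, hk, Real.norm_eq_abs, abs_of_pos (inv_pos.2 hr), inv_mul_cancel₀ hr.ne']
    have hu0 : s * u 0 ≠ 1 := by
      have h1 : u 0 = r⁻¹ * (y 0 + ε * k * v 0 - O 0) := rfl
      have h2 : s * u 0 = r⁻¹ * (s * (y 0 - O 0) + k * (s' * v 0)) := by
        rw [h1, hε]
        have : s * (r⁻¹ * (y 0 + s * s' * k * v 0 - O 0)) =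
            r⁻¹ * (s * (y 0 - O 0) + (s * s) * (k * (s' * v 0))) := by ring
        rw [this, hss, one_mul]
      have h3 : |y 0 - O 0| ≤ ‖y - O‖ := by
        have := EuclideanSpace.norm_eq (y - O)
        have h4 := PiLp.norm_apply_le (y - O) 0
        simpa using h4
      have h5 : s * (y 0 - O 0) < r := by
        have h6 : s * (y 0 - O 0) ≤ |s * (y 0 - O 0)| := le_abs_self _
        have h7 : |s| = 1 := by rcases hs with h | h <;> rw [h] <;> norm_num
        rw [abs_mul, h7, one_mul] at h6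
        linarith
      have h8 : k * (s' * v 0) ≤ 0 := mul_nonpos_of_nonneg_of_nonpos hk0 hv0.le
      have h9 : s * u 0 < 1 := by
        rw [h2, inv_mul_lt_iff₀ hr]
        linarith
      exact h9.ne
    obtain ⟨ξ, hξ⟩ := sg_surj hs u hu1 hu0
    obtain ⟨η, hη⟩ := sg_surj hs' v hv1 (by linarith)
    have h := hcon (Sum.elim ξ η) (-(ε * k)) c hc0
    have hch1 : (chart O r s s' (Sum.elim ξ η)).1 = y + (ε * k) • v := by
      show O + r • sg s ξ = _
      rw [← hξ, hu, smul_smul, mul_inv_cancel₀ hr.ne', one_smul]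
      abel
    have hch2 : (chart O r s s' (Sum.elim ξ η)).2 = v := by
      show sg s' η = v
      exact hη.symm
    rw [hch1, hch2] at h
    show MvPolynomial.eval (fun i => (x i : ℂ)) P = 0
    rw [← h]
    congr 1
    congr 1
    funext i
    rcases i with i | i
    · simp only [Sum.elim_inl]
      congr 1
      have h1 : (y + (ε * k) • v) i = x (Sum.inl i) + ε * k * v i := rfl
      rw [h1]
      ring
    · simp only [Sum.elim_inr]
      congr 1
      have h1 : v i = c⁻¹ * x (Sum.inr i) := rfl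
      rw [h1, ← mul_assoc, mul_inv_cancel₀ hc0.ne', one_mul]
  have h0 := null_fintype P hP
  have h1 : volume Ω = 0 := measure_mono_null hsub h0
  exact (hΩo.measure_pos volume hΩn).ne' h1

/-- polynomial numerators -/
noncomputable def pnum {m : ℕ} (s : ℝ) (X : Fin m → MvPolynomial (Fin m ⊕ Fin m) ℂ) :
    Fin (m + 1) → MvPolynomial (Fin m ⊕ Fin m) ℂ :=
  Fin.cons (MvPolynomial.C (s : ℂ) * (∑ j, X j ^ 2 - 1)) (fun i => 2 * X i)

theorem pnum_eval {m : ℕ} (s : ℝ) (X : Fin m → MvPolynomial (Fin m ⊕ Fin m) ℂ)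
    (x : Fin m ⊕ Fin m → ℂ) (ξ : Fin m → ℝ) (h : ∀ i, MvPolynomial.eval x (X i) = (ξ i : ℂ))
    (i : Fin (m + 1)) : MvPolynomial.eval x (pnum s X i) = (num s ξ i : ℂ) := by
  refine Fin.cases ?_ (fun j => ?_) i
  · unfold pnum num
    rw [Fin.cons_zero, Fin.cons_zero]
    simp only [map_mul, map_sub, map_sum, map_pow, map_one, MvPolynomial.eval_C, h]
    push_cast
    rfl
  · unfold pnum num
    rw [Fin.cons_succ, Fin.cons_succ]
    simp only [map_mul, h]
    push_cast
    congr 1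
    exact map_ofNat _ 2

theorem chart_null {m : ℕ} (O : EuclideanSpace ℝ (Fin (m + 1))) {r : ℝ} (hr : 0 < r) {s s' : ℝ}
    (hs : s = 1 ∨ s = -1) (hs' : s' = 1 ∨ s' = -1)
    (P : MvPolynomial (Fin (m + 1) ⊕ Fin (m + 1)) ℂ) (hP : P ≠ 0)
    (Q : Set (Fin m ⊕ Fin m → ℝ)) (hQ : ∀ z ∈ Q, ∀ t c : ℝ, 0 < c →
      MvPolynomial.eval (Sum.elim
        (fun k => (((chart O r s s' z).1 k + t * (chart O r s s' z).2 k : ℝ) : ℂ))
        (fun k => ((c * (chart O r s s' z).2 k : ℝ) : ℂ))) P = 0) : volume Q = 0 := by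
  obtain ⟨z0, t, c, hc, hz0⟩ := exists_ne O hr hs hs' P hP
  set X1 : Fin m → MvPolynomial (Fin m ⊕ Fin m) ℂ := fun i => MvPolynomial.X (Sum.inl i) with hX1
  set X2 : Fin m → MvPolynomial (Fin m ⊕ Fin m) ℂ := fun i => MvPolynomial.X (Sum.inr i) with hX2
  set b1 : MvPolynomial (Fin m ⊕ Fin m) ℂ := 1 + ∑ j, X1 j ^ 2 with hb1
  set b2 : MvPolynomial (Fin m ⊕ Fin m) ℂ := 1 + ∑ j, X2 j ^ 2 with hb2
  set f : Fin (m + 1) ⊕ Fin (m + 1) → MvPolynomial (Fin m ⊕ Fin m) ℂ :=
    Sum.elim (fun i => MvPolynomial.C ((O i : ℝ) : ℂ) * b1 * b2 +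
      MvPolynomial.C (r : ℂ) * pnum s X1 i * b2 + MvPolynomial.C (t : ℂ) * pnum s' X2 i * b1)
      (fun i => MvPolynomial.C (c : ℂ) * pnum s' X2 i * b1) with hf
  obtain ⟨D, G, hG⟩ := clear_denoms P f (b1 * b2)
  have key : ∀ z : Fin m ⊕ Fin m → ℝ,
      MvPolynomial.eval (fun i => (z i : ℂ)) G =
        (((den (fun i => z (Sum.inl i)) * den (fun i => z (Sum.inr i)) : ℝ) : ℂ)) ^ D *
        MvPolynomial.eval (Sum.elim
          (fun k => (((chart O r s s' z).1 k + t * (chart O r s s' z).2 k : ℝ) : ℂ))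
          (fun k => ((c * (chart O r s s' z).2 k : ℝ) : ℂ))) P := by
    intro z
    set ξ : Fin m → ℝ := fun i => z (Sum.inl i) with hξ
    set η : Fin m → ℝ := fun i => z (Sum.inr i) with hη
    have e1 : MvPolynomial.eval (fun i => (z i : ℂ)) b1 = (den ξ : ℂ) := by
      rw [hb1]
      unfold den
      simp only [map_add, map_one, map_sum, map_pow, hX1, MvPolynomial.eval_X]
      push_cast
      rfl
    have e2 : MvPolynomial.eval (fun i => (z i : ℂ)) b2 = (den η : ℂ) := by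
      rw [hb2]
      unfold den
      simp only [map_add, map_one, map_sum, map_pow, hX2, MvPolynomial.eval_X]
      push_cast
      rfl
    have d1 : (den ξ : ℂ) ≠ 0 := by exact_mod_cast (den_pos ξ).ne'
    have d2 : (den η : ℂ) ≠ 0 := by exact_mod_cast (den_pos η).ne'
    have eB : MvPolynomial.eval (fun i => (z i : ℂ)) (b1 * b2) = (den ξ : ℂ) * (den η : ℂ) := by
      rw [map_mul, e1, e2]
    have n1 : ∀ i, MvPolynomial.eval (fun i => (z i : ℂ)) (pnum s X1 i) = (num s ξ i : ℂ) :=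
      fun i => pnum_eval s X1 _ ξ (fun i => by rw [hX1]; simp [hξ]) i
    have n2 : ∀ i, MvPolynomial.eval (fun i => (z i : ℂ)) (pnum s' X2 i) = (num s' η i : ℂ) :=
      fun i => pnum_eval s' X2 _ η (fun i => by rw [hX2]; simp [hη]) i
    have h1 := hG (fun i => (z i : ℂ)) (by rw [eB]; exact mul_ne_zero d1 d2)
    rw [h1, eB]
    push_cast
    congr 1
    congr 1
    congr 1
    funext i
    rcases i with i | i
    · simp only [hf, Sum.elim_inl]
      rw [map_add, map_add, map_mul, map_mul, map_mul, map_mul, map_mul, map_mul,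
        MvPolynomial.eval_C, MvPolynomial.eval_C, MvPolynomial.eval_C, n1, n2, e1, e2]
      have c1 : (chart O r s s' z).1 i = O i + r * (num s ξ i / den ξ) := rfl
      have c2 : (chart O r s s' z).2 i = num s' η i / den η := rfl
      rw [c1, c2]
      push_cast
      field_simp
    · simp only [hf, Sum.elim_inr]
      rw [map_mul, map_mul, MvPolynomial.eval_C, n2, e1]
      have c2 : (chart O r s s' z).2 i = num s' η i / den η := rfl
      rw [c2]
      push_cast
      field_simp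
  have hG0 : G ≠ 0 := by
    intro h
    have h1 := key z0
    rw [h, map_zero] at h1
    rcases mul_eq_zero.1 h1.symm with h2 | h2
    · have h3 := (pow_eq_zero_iff').1 h2
      have h4 : (den (fun i => z0 (Sum.inl i)) * den (fun i => z0 (Sum.inr i)) : ℝ) ≠ 0 :=
        mul_ne_zero (den_pos _).ne' (den_pos _).ne'
      exact h4 (by exact_mod_cast h3.1)
    · exact hz0 h2
  refine measure_mono_null ?_ (null_fintype G hG0)
  intro z hz
  show MvPolynomial.eval (fun i => (z i : ℂ)) G = 0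
  rw [key, hQ z hz t c hc, mul_zero]

theorem meas : S_meas := by
  intro n hn O r hr P hP Z hZ
  obtain ⟨m, rfl⟩ : ∃ m, n = m + 1 := ⟨n - 1, by omega⟩
  have hcov : Z ⊆ (chart O r 1 1 '' (chart O r 1 1 ⁻¹' Z)) ∪ (chart O r 1 (-1) '' (chart O r 1 (-1) ⁻¹' Z)) ∪
      ((chart O r (-1) 1 '' (chart O r (-1) 1 ⁻¹' Z)) ∪ (chart O r (-1) (-1) '' (chart O r (-1) (-1) ⁻¹' Z))) := by
    intro q hq
    obtain ⟨h1, h2, -, -⟩ := hZ q hq
    set u : EuclideanSpace ℝ (Fin (m + 1)) := r⁻¹ • (q.1 - O) with hu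
    have hu1 : ‖u‖ = 1 := by
      rw [hu, norm_smul, h1, Real.norm_eq_abs, abs_of_pos (inv_pos.2 hr), inv_mul_cancel₀ hr.ne']
    have hex : ∀ w : EuclideanSpace ℝ (Fin (m + 1)), ‖w‖ = 1 →
        (∃ ξ, w = sg 1 ξ) ∨ (∃ ξ, w = sg (-1) ξ) := by
      intro w hw
      by_cases h : (1 : ℝ) * w 0 = 1
      · right
        apply sg_surj (Or.inr rfl) w hw
        linarith
      · left
        exact sg_surj (Or.inl rfl) w hw h
    have hq1 : q.1 = O + r • u := by
      rw [hu, smul_smul, mul_inv_cancel₀ hr.ne', one_smul]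
      abel
    have hmk : ∀ (s s' : ℝ) (ξ η : Fin m → ℝ), u = sg s ξ → q.2 = sg s' η →
        q ∈ chart O r s s' '' (chart O r s s' ⁻¹' Z) := by
      intro s s' ξ η h3 h4
      have h5 : chart O r s s' (Sum.elim ξ η) = q := by
        apply Prod.ext
        · show O + r • sg s ξ = q.1
          rw [← h3, hq1]
        · show sg s' η = q.2
          rw [h4]
      refine ⟨Sum.elim ξ η, ?_, h5⟩
      show chart O r s s' (Sum.elim ξ η) ∈ Z
      rw [h5]
      exact hq
    rcases hex u hu1 with ⟨ξ, hξ⟩ | ⟨ξ, hξ⟩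
    · rcases hex q.2 h2 with ⟨η, hη⟩ | ⟨η, hη⟩
      · exact Or.inl (Or.inl (hmk _ _ ξ η hξ hη))
      · exact Or.inl (Or.inr (hmk _ _ ξ η hξ hη))
    · rcases hex q.2 h2 with ⟨η, hη⟩ | ⟨η, hη⟩
      · exact Or.inr (Or.inl (hmk _ _ ξ η hξ hη))
      · exact Or.inr (Or.inr (hmk _ _ ξ η hξ hη))
  have hcard : ((2 * (m + 1) - 2 : ℕ) : ℝ) = (Fintype.card (Fin m ⊕ Fin m) : ℝ) := by
    congr 1
    rw [Fintype.card_sum, Fintype.card_fin]
    omega
  rw [hcard]
  have hnull : ∀ s s' : ℝ, (s = 1 ∨ s = -1) → (s' = 1 ∨ s' = -1) →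
      Measure.hausdorffMeasure (Fintype.card (Fin m ⊕ Fin m) : ℝ)
        (chart O r s s' '' (chart O r s s' ⁻¹' Z)) = 0 := by
    intro s s' hs hs'
    apply image_null (chart_contDiff O r s s')
    apply chart_null O hr hs hs' P hP
    intro z hz t c hc
    exact (hZ _ hz).2.2.2 t c hc
  refine measure_mono_null hcov (measure_union_null (measure_union_null ?_ ?_)
    (measure_union_null ?_ ?_))
  · exact hnull 1 1 (Or.inl rfl) (Or.inl rfl)
  · exact hnull 1 (-1) (Or.inl rfl) (Or.inr rfl)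
  · exact hnull (-1) 1 (Or.inr rfl) (Or.inl rfl)
  · exact hnull (-1) (-1) (Or.inr rfl) (Or.inr rfl)

end Pool.Agent.W440.IV
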